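import Pool.Agent.Lib.MP_bd1dbb_gt.Final

/-!
# Periodic maps of disk-like continua have fixed points

A compact metric space is disk-like if for every `ε > 0` it has an `ε`-map onto the closed 2-disk, equivalently if it
is homeomorphic to the inverse limit of a sequence of closed 2-disks with continuous surjective bonding maps. Every
continuous self-map of such a space some iterate of which is the identity has a fixed point.
-/

set_option autoImplicit false

universe u

namespace Pool.Agent.Results.MP_bd1dbb_gt.PeriodicMaps

open Function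

/-- The closed 2-disk, as a metric space. -/
abbrev Disk : Type := Metric.closedBall (0 : EuclideanSpace ℝ (Fin 2)) 1

/-- `f` is an `ε`-map: a continuous surjection all of whose fibres have diameter less than `ε`. -/
def IsEpsMap {X Y : Type*} [MetricSpace X] [MetricSpace Y] (ε : ℝ) (f : X → Y) : Prop :=
  Continuous f ∧ Surjective f ∧ ∀ y : Y, Metric.diam (f ⁻¹' {y}) < ε

/-- Disk-like: for every `ε > 0` there is an `ε`-map onto the closed 2-disk. -/
def DiskLike (X : Type*) [MetricSpace X] : Prop :=
  ∀ ε : ℝ, 0 < ε → ∃ f : X → Disk, IsEpsMap ε f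

/-- The inverse limit of the sequence of closed 2-disks with bonding maps `b n` from the disk number `n + 1` to the
disk number `n`, with the topology induced by the product topology. -/
abbrev InvLim (b : ℕ → Disk → Disk) : Type := {x : ℕ → Disk // ∀ n, b n (x (n + 1)) = x n}

/-- `X` is homeomorphic to the inverse limit of a sequence of closed 2-disks with continuous surjective bonding
maps. -/
def IsLimitOfDisks (X : Type*) [TopologicalSpace X] : Prop :=
  ∃ b : ℕ → Disk → Disk, (∀ n, Continuous (b n)) ∧ (∀ n, Surjective (b n)) ∧ Nonempty (X ≃ₜ InvLim b)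

/-- Disk-like spaces in the sense used in the proof. -/
theorem diskLike_aux {X : Type} [MetricSpace X] (H : DiskLike X) : Pool.Agent.MPbd.DiskLike X := by
  intro ε hε
  obtain ⟨f, hf, hs, hd⟩ := H ε hε
  refine ⟨fun x => (f x : EuclideanSpace ℝ (Fin 2)), continuous_subtype_val.comp hf, ?_, ?_⟩
  · ext y
    constructor
    · rintro ⟨x, rfl⟩
      exact (f x).2
    · intro hy
      obtain ⟨x, hx⟩ := hs ⟨y, hy⟩
      exact ⟨x, by simp [hx]⟩
  · intro y
    by_cases hy : y ∈ Metric.closedBall (0 : EuclideanSpace ℝ (Fin 2)) 1
    · have h1 : (fun x => (f x : EuclideanSpace ℝ (Fin 2))) ⁻¹' {y} = f ⁻¹' {⟨y, hy⟩} := by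
        ext x
        simp [Subtype.ext_iff]
      rw [h1]
      exact hd _
    · have h1 : (fun x => (f x : EuclideanSpace ℝ (Fin 2))) ⁻¹' {y} = ∅ := by
        ext x
        simp only [Set.mem_preimage, Set.mem_singleton_iff, Set.mem_empty_iff_false, iff_false]
        intro hx
        exact hy (hx ▸ (f x).2)
      rw [h1, Metric.diam_empty]
      exact hε

/-- The theorem for spaces in `Type`. -/
theorem fixed_point_zero {X : Type} [MetricSpace X] [CompactSpace X] (H : DiskLike X) (h : X → X)
    (hc : Continuous h) (n : ℕ) (hn : 1 ≤ n) (hh : h^[n] = id) : ∃ x, h x = x :=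
  Pool.Agent.MPbd.main (diskLike_aux H) n hn h hc (fun x => by rw [hh]; rfl)

/-- Disk-likeness passes through isometries. -/
theorem DiskLike.of_isometry {X Y : Type*} [MetricSpace X] [MetricSpace Y] (H : DiskLike X)
    (e : Y ≃ᵢ X) : DiskLike Y := by
  intro ε hε
  obtain ⟨f, hf, hs, hd⟩ := H ε hε
  refine ⟨f ∘ e, hf.comp e.continuous, hs.comp e.surjective, ?_⟩
  intro y
  rw [Set.preimage_comp, e.diam_preimage]
  exact hd y

/-- The theorem for `ε`-maps. -/
theorem fixed_point_eps {X : Type u} [MetricSpace X] [CompactSpace X] (H : DiskLike X) (h : X → X)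
    (hc : Continuous h) (n : ℕ) (hn : 1 ≤ n) (hh : h^[n] = id) : ∃ x, h x = x := by
  let e : X ≃ᵢ Set.range (kuratowskiEmbedding X) :=
    (kuratowskiEmbedding.isometry X).isometryEquivOnRange
  have : CompactSpace (Set.range (kuratowskiEmbedding X)) := e.toHomeomorph.compactSpace
  obtain ⟨y, hy⟩ := fixed_point_zero (H.of_isometry e.symm) (fun y => e (h (e.symm y)))
    (e.continuous.comp (hc.comp e.symm.continuous)) n hn (by
      have h1 : ∀ k y, (fun y => e (h (e.symm y)))^[k] y = e (h^[k] (e.symm y)) := by
        intro k
        induction k with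
        | zero => intro y; simp
        | succ k ih => intro y; rw [iterate_succ_apply', iterate_succ_apply', ih]; simp
      funext y
      rw [h1, hh]
      simp)
  exact ⟨e.symm y, e.injective (by rw [hy, e.apply_symm_apply])⟩

section limit

variable {b : ℕ → Disk → Disk}

/-- The composition of bonding maps from level `m + j` to level `m`. -/
def down (b : ℕ → Disk → Disk) (m : ℕ) : ℕ → Disk → Disk
  | 0 => id
  | j + 1 => fun z => down b m j (b (m + j) z)

theorem bond_down (m : ℕ) : ∀ (j : ℕ) (z : Disk), b m (down b (m + 1) j z) = down b m (j + 1) z := by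
  intro j
  induction j with
  | zero => intro z; rfl
  | succ j ih =>
    intro z
    change b m (down b (m + 1) j (b (m + 1 + j) z)) = down b m (j + 1) (b (m + (j + 1)) z)
    rw [ih, show m + 1 + j = m + (j + 1) by omega]

/-- The projections of the inverse limit are surjective. -/
theorem proj_surjective (hs : ∀ n, Surjective (b n)) (n : ℕ) :
    Surjective (fun x : InvLim b => x.1 n) := by
  intro y
  choose s hs using fun k => (hs k).hasRightInverse
  let up : ℕ → Disk := fun j => Nat.rec y (fun i z => s (n + i) z) j
  have hup : ∀ j, b (n + j) (up (j + 1)) = up j := fun j => hs (n + j) (up j)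
  refine ⟨⟨fun m => if n ≤ m then up (m - n) else down b m (n - m) y, ?_⟩, ?_⟩
  · intro m
    beta_reduce
    by_cases h1 : n ≤ m
    · rw [if_pos h1, if_pos (by omega)]
      have h2 := hup (m - n)
      rw [show n + (m - n) = m by omega, show m - n + 1 = m + 1 - n by omega] at h2
      exact h2
    · rw [if_neg h1]
      by_cases h3 : n ≤ m + 1
      · rw [if_pos h3, show m + 1 - n = 0 by omega, show n - m = 1 by omega]
        rfl
      · rw [if_neg h3, bond_down (b := b) m, show n - (m + 1) + 1 = n - m by omega]
  · beta_reduce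
    simp only [le_refl, if_true, Nat.sub_self]
    rfl

/-- The inverse limit is compact. -/
theorem compact_invLim (hc : ∀ n, Continuous (b n)) : CompactSpace (InvLim b) := by
  have h1 : IsClosed {x : ℕ → Disk | ∀ n, b n (x (n + 1)) = x n} := by
    have h2 : {x : ℕ → Disk | ∀ n, b n (x (n + 1)) = x n} =
        ⋂ n, {x : ℕ → Disk | b n (x (n + 1)) = x n} := by
      ext x; simp
    rw [h2]
    exact isClosed_iInter fun n => isClosed_eq ((hc n).comp (continuous_apply (n + 1)))
      (continuous_apply n)
  exact isCompact_iff_compactSpace.1 h1.isCompact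

/-- A compact metric space homeomorphic to an inverse limit of closed disks has, for every `ε`, an `ε`-map onto the
closed disk. -/
theorem diskLike_of_limit {X : Type*} [MetricSpace X] [CompactSpace X] (H : IsLimitOfDisks X) :
    DiskLike X := by
  obtain ⟨b, hc, hs, ⟨e⟩⟩ := H
  intro ε hε
  by_contra hcon
  push Not at hcon
  have hp : ∀ n, Continuous fun x : X => (e x).1 n := fun n =>
    (continuous_apply n).comp (continuous_subtype_val.comp e.continuous)
  have hps : ∀ n, Surjective fun x : X => (e x).1 n := fun n =>
    (proj_surjective hs n).comp e.surjective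
  let K : ℕ → Set (X × X) := fun n =>
    {q | (e q.1).1 n = (e q.2).1 n} ∩ {q | ε / 2 ≤ dist q.1 q.2}
  have hKc : ∀ n, IsClosed (K n) := fun n =>
    (isClosed_eq ((hp n).comp continuous_fst) ((hp n).comp continuous_snd)).inter
      (isClosed_le continuous_const (continuous_fst.dist continuous_snd))
  have hKanti : ∀ n, K (n + 1) ⊆ K n := by
    rintro n q ⟨h1, h2⟩
    refine ⟨?_, h2⟩
    have h3 := (e q.1).2 n
    have h4 := (e q.2).2 n
    have h5 : (e q.1).1 (n + 1) = (e q.2).1 (n + 1) := h1
    change (e q.1).1 n = (e q.2).1 n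
    rw [← h3, ← h4, h5]
  have hKne : ∀ n, (K n).Nonempty := by
    intro n
    by_contra hemp
    rw [Set.not_nonempty_iff_eq_empty] at hemp
    apply hcon (fun x : X => (e x).1 n)
    refine ⟨hp n, hps n, ?_⟩
    intro y
    apply lt_of_le_of_lt _ (half_lt_self hε)
    apply Metric.diam_le_of_forall_dist_le (by positivity)
    intro x hx x' hx'
    by_contra hlt
    push Not at hlt
    have h1 : (x, x') ∈ K n := by
      refine ⟨?_, hlt.le⟩
      have h2 : (e x).1 n = y := hx
      have h3 : (e x').1 n = y := hx'
      change (e x).1 n = (e x').1 n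
      rw [h2, h3]
    rw [hemp] at h1
    exact h1
  obtain ⟨q, hq⟩ := IsCompact.nonempty_iInter_of_sequence_nonempty_isCompact_isClosed K hKanti hKne
    (hKc 0).isCompact hKc
  rw [Set.mem_iInter] at hq
  have h1 : e q.1 = e q.2 := Subtype.ext (funext fun n => (hq n).1)
  have h2 : ε / 2 ≤ dist q.1 q.2 := (hq 0).2
  rw [e.injective h1, dist_self] at h2
  linarith

end limit

/-- Let `X` be a compact metric space which is disk-like: for every `ε > 0` it has an `ε`-map onto the closed 2-disk, or
it is homeomorphic to the inverse limit of a sequence of closed 2-disks with continuous surjective bonding maps. Then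
every continuous map `h : X → X` with `h^n = id` for some `n ≥ 1` (in particular every periodic homeomorphism) has a
fixed point. -/
theorem result (X : Type u) [MetricSpace X] [CompactSpace X]
    (hX : (∀ ε : ℝ, 0 < ε → ∃ f : X → Disk, IsEpsMap ε f) ∨ IsLimitOfDisks X)
    (h : X → X) (hc : Continuous h) (hper : ∃ n : ℕ, 1 ≤ n ∧ h^[n] = id) :
    ∃ x : X, h x = x := by
  obtain ⟨n, hn, hh⟩ := hper
  rcases hX with hX | hX
  · exact fixed_point_eps hX h hc n hn hh
  · exact fixed_point_eps (diskLike_of_limit hX) h hc n hn hh

end Pool.Agent.Results.MP_bd1dbb_gt.PeriodicMaps
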